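import Pool.Agent.TH585.SV.Hyp2

/-!
# Abundance for powerful linear systems whose fibres are covers of products of hyperelliptic curves

Let `X` be a smooth projective variety of dimension `d + e`, `Δ ≥ 0` an `ℝ`-divisor on `X` (`Δ = 0`
for Q1) and `|V|` a linear system on `X` without fixed components, of dimension `n`, whose rational
map `f : X ⇢ ℙⁿ` has an image `Y` of dimension `d`, `1 ≤ d ≤ n`, so that its fibres have dimension
`e ≥ 1`; `Y` may be any nondegenerate variety of dimension `d`, for instance rational. Suppose:

* (the members) `D i` (`i < q`) are finitely many members of `|V|`, in arbitrary position, such that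
  `V` is not a direct sum of two nonzero subspaces with each `D i` in one of them (for instance
  `n + 2` members, any `n + 1` of which are linearly independent), and each prime divisor `P` of `X`
  which is a component of some `D i` has a multiplicity at least `s (1 - δ P)` in one of them
  (`δ P` is the coefficient of `P` in `Δ`), where `s > (n + 2) (n - d + 1) (n - d + 2) / 2`
  (`n + 1` instead of `n + 2` if there are `n + 3` different members);
* (the fibres) the general fibre `F` of the Stein factorization of `f` has a generically finite
  rational map onto a product of `e` elliptic or hyperelliptic curves `y_j² = c_j f_j(x_j)`, which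
  may vary with the fibre: `f_j` is a monic separable polynomial of any degree `≥ 3`, `c_j` and the
  coefficients of `f_j` are algebraic over the function field of `Y`, `x_j, y_j` are rational
  functions on `X`, and the `x_j` are a transcendence basis of `K` over the function field of `Y`.
  If `e = 1` this is satisfied by all fibrations into curves of genus one (a curve `F` of genus one
  over a field `L` with a divisor `D` of degree `m ≥ 1` maps to its Jacobian, `Q ↦ m Q - D`) and by
  all fibrations into curves of genus two.

Then `κ (X, K_X + Δ) ≥ d`: some positive multiple of `K_X + Δ` has `d + 1` sections whose ratios are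
`d` algebraically independent rational functions on `Y`.

Consequences for `Δ = 0` (published theorems, not part of the Lean). Since the ratios of the sections
are functions on `Y`, the general fibre `I` of the Iitaka fibration of `X` is contained in a fibre of
`f`; so it has a generically finite map to an abelian variety (a product of Jacobians), and
`κ(I) = 0`, so that `I` is birational to an abelian variety (Kawamata 1981), `κ(X) = d + κ(F)`, and
`X` has a good minimal model by Lai (Math. Ann. 350 (2011)). If `K_X` is nef then `K_X` is semiample
and `κ(X) = ν(X)`. So Q1 has a positive answer for all `X` of this class, with fibres of any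
dimension `e`.

The function-field language of the starting repository is used. `K` is the function field of `X`;
the prime divisors of `X` are places `P` of `K` (`Place`, `Divisorial`), `P.ord` is the order along
`P`, and `X` is given by the set of its prime divisors. The linear system is given by the finite
dimensional space `V` of rational functions: if `a` is the minimum of the orders at `P` of the
elements of `V` then the multiplicity of `P` in the divisor of `f ∈ V` is `P.ord f - a`. A section of
`N (K_X + Δ)` is an `N`-canonical form `ω` (`IsPluri`), a function of `d + e` rational vector fields,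
whose value on vector fields that are regular at `P` has order at least `- N δ P`, for all prime
divisors `P` of `X`.

Proof (`Pool.Agent.TH585.SV`, files `Blk`, `Ord`, `Fib` to `Fib10`, `Ell`, `Ell2`, `Hyp`, `Hyp2`). The
new point is that the discriminant form `θ (G) = R (G x) ^ (N (N - 1)) / f(x) ^ (2 (N - 1))` of the
vector fields `G` which are tangent to the fibres is regular on `X`, for each of the curves, where
`R` is the resultant of `f` and its derivative, and `N` is the degree of `f` or the degree plus one,
whichever is even. Let `G` be a regular vector field at `P` which is tangent to the fibres. If some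
function on `Y` is not a unit at `P` then `G` is logarithmic at `P`; since
`G (f⁽ᵏ⁾(x)) = f⁽ᵏ⁺¹⁾(x) G x`, all coefficients of the polynomial `f (x + (G x) T) / f(x)` in `T` are
regular at `P`, hence its discriminant, which is `θ (G)` (up to sign, if the degree is even), and its
leading coefficient are regular. If all functions on `Y` are units at `P` this is the regularity of
`(dx / y) ^ …` on a hyperelliptic curve. The sections are products of powers of the `θ` with a
generalised Wronskian of `V` (`FibresWithForms`, `MP_66b48b_ag`).
-/

set_option autoImplicit false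

open FF Polynomial Pool.Agent.W602.GT

namespace Pool.Agent.Results.MP_c2a5fc_ag.HyperellipticFibres

/-- The function field of the image of the rational map which is given by the linear system `V`: the
field generated by the quotients of the members. -/
noncomputable def ImageField {K : Type} [Field K] [Algebra ℂ K] (V : Submodule ℂ K) :
    IntermediateField ℂ K :=
  IntermediateField.adjoin ℂ {y : K | ∃ f ∈ V, ∃ g ∈ V, y = f / g}

/-- `V` is the direct sum of two nonzero subspaces such that each `φ i` is in one of them. -/
def Decomposes {q : ℕ} {K : Type} [Field K] [Algebra ℂ K] (V : Submodule ℂ K)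
    (φ : Fin q → K) : Prop :=
  ∃ V₁ V₂ : Submodule ℂ K, V₁ ≠ ⊥ ∧ V₂ ≠ ⊥ ∧ V₁ ⊓ V₂ = ⊥ ∧ V₁ ⊔ V₂ = V ∧ ∀ i, φ i ∈ V₁ ∨ φ i ∈ V₂

/-- There are `r` members `φ i` of which no two are proportional. -/
def Different (r : ℕ) {q : ℕ} {K : Type} [Field K] [Algebra ℂ K] (φ : Fin q → K) : Prop :=
  ∃ τ : Fin r → Fin q, ∀ i j, i ≠ j → ∀ t : ℂ, φ (τ i) ≠ t • φ (τ j)

/-- The condition on the multiplicities, on a variety `X` of dimension `w`: if the prime divisor `P`
of `X` is a component of one of the divisors `D i` (the order of `φ i` at `P` is not the minimum `a`
of the orders of the members of `V`), then the multiplicity `P.ord (φ i) - a` of `P` in one of them is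
at least `s (1 - δ P)`. -/
def Multiplicities (w : ℕ) {q : ℕ} {K : Type} [Field K] [Algebra ℂ K] (V : Submodule ℂ K)
    (φ : Fin q → K) (X : Set (Place ℂ K)) (δ : Place ℂ K → ℝ) (s : ℝ) : Prop :=
  ∀ P ∈ X, Divisorial w P → ∀ a : ℤ, (∀ f ∈ V, f = 0 ∨ a ≤ P.ord f) →
    (∃ f ∈ V, f ≠ 0 ∧ P.ord f = a) → (∃ i, P.ord (φ i) ≠ a) →
    ∃ i, s * (1 - δ P) ≤ ((P.ord (φ i) - a : ℤ) : ℝ)

/-- The variety with the function field `K` has a generically finite rational map, over the variety
with the function field `L`, onto the product of the `e` elliptic or hyperelliptic curves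
`y j ^ 2 = c j * f j (x j)`, where `f j` is a monic separable polynomial of degree at least `3`, and
`c j ≠ 0` and the coefficients of `f j` are algebraic over `L`. -/
def OverHyperellipticCurves {e : ℕ} {K : Type} [Field K] [Algebra ℂ K]
    (L : IntermediateField ℂ K) (f : Fin e → K[X]) (c x y : Fin e → K) : Prop :=
  (∀ j, (∀ i, IsAlgebraic L ((f j).coeff i)) ∧ (f j).Monic ∧ (f j).Separable ∧
    3 ≤ (f j).natDegree ∧ IsAlgebraic L (c j) ∧ c j ≠ 0 ∧ y j ^ 2 = c j * (f j).eval (x j)) ∧
  IsTranscendenceBasis L x

/-- `ω` is a section of `N (K_X + Δ)`, where `X` of dimension `w` is given by the set of its prime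
divisors, and `Δ` has the coefficient `δ P` at `P`: an `N`-canonical form whose values on vector
fields which are regular at `P` have order at least `- N δ P`, for all prime divisors `P` of `X`. -/
def IsSection {K : Type} [Field K] [Algebra ℂ K] (w : ℕ) (X : Set (Place ℂ K))
    (δ : Place ℂ K → ℝ) (N : ℕ) (ω : (Fin w → Derivation ℂ K K) → K) : Prop :=
  IsPluri N ω ∧ ∀ P ∈ X, Divisorial w P → ∀ D : Fin w → Derivation ℂ K K,
    (∀ i, DerReg P (D i)) → ω D = 0 ∨ -(N * δ P) ≤ (P.ord (ω D) : ℝ)

/-- `κ (X, K_X + Δ) ≥ d` by sections whose ratios are in `L`: some positive multiple of `K_X + Δ` has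
`d + 1` sections whose ratios to the first one are elements of `L` which are algebraically
independent. -/
def KodairaGeOver {K : Type} [Field K] [Algebra ℂ K] (w : ℕ) (X : Set (Place ℂ K))
    (δ : Place ℂ K → ℝ) (L : IntermediateField ℂ K) (d : ℕ) : Prop :=
  ∃ N : ℕ, 0 < N ∧ ∃ ω : Fin (d + 1) → (Fin w → Derivation ℂ K K) → K,
    (∀ j, IsSection w X δ N (ω j)) ∧
    ∃ D, ω 0 D ≠ 0 ∧ (∀ i : Fin d, ω i.succ D / ω 0 D ∈ L) ∧
      AlgebraicIndependent ℂ (fun i : Fin d => ω i.succ D / ω 0 D)

/-- **Powerful linear systems with fibres over products of hyperelliptic curves.** Let `K` be the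
function field of a smooth projective variety `X` of dimension `d + e`, `V` a linear system of
dimension `n` on `X` whose rational map has an image of dimension `d`, `1 ≤ d ≤ n`, `e ≥ 1`, and
`Δ ≥ 0` a real divisor on `X`. Let `φ i` be nonzero members which do not decompose `V`, such that each
prime divisor `P` which is a component of one of their divisors has a multiplicity at least
`s (1 - δ P)` in one of them, where `2 s > (n + 2) (n - d + 1) (n - d + 2)`, or
`2 s > (n + 1) (n - d + 1) (n - d + 2)` if there are `n + 3` different members. Suppose that the
fibres have generically finite maps onto products of `e` elliptic or hyperelliptic curves. Then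
`κ (X, K_X + Δ) ≥ d`, by sections whose ratios are functions on the image. -/
theorem result (d e n q : ℕ) (hd : 1 ≤ d) (he : 1 ≤ e) (hdn : d ≤ n) (K : Type) [Field K]
    [Algebra ℂ K] (hK : Algebra.trdeg ℂ K = (d + e : ℕ)) (V : Submodule ℂ K)
    (hV : Module.finrank ℂ V = n + 1) (hVd : Algebra.trdeg ℂ (ImageField V) = d)
    (φ : Fin q → K) (hφV : ∀ i, φ i ∈ V) (hφ0 : ∀ i, φ i ≠ 0) (hdec : ¬ Decomposes V φ)
    (X : Set (Place ℂ K)) (δ : Place ℂ K → ℝ) (hδ : ∀ P ∈ X, 0 ≤ δ P) (s : ℝ)
    (hs : ((n : ℝ) + 2) * (((n : ℝ) - d + 1) * ((n : ℝ) - d + 2)) < 2 * s ∨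
      (Different (n + 3) φ ∧ ((n : ℝ) + 1) * (((n : ℝ) - d + 1) * ((n : ℝ) - d + 2)) < 2 * s))
    (h : Multiplicities (d + e) V φ X δ s) (f : Fin e → K[X]) (c x y : Fin e → K)
    (hF : OverHyperellipticCurves (ImageField V) f c x y) :
    KodairaGeOver (d + e) X δ (ImageField V) d := by
  have := he
  obtain ⟨k, rfl⟩ := Nat.exists_eq_add_of_le hdn
  have e1 : ((d + k : ℕ) : ℝ) - d = (k : ℝ) := by
    push_cast
    ring
  rw [e1] at hs
  exact Pool.Agent.TH585.SV.lin_hyp_kod (k := k) hd rfl hK (V := V) hV hVd hφV hφ0 hdec X δ hδ hs h
    hF.1 hF.2

end Pool.Agent.Results.MP_c2a5fc_ag.HyperellipticFibres
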