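import Pool.Agent.TH122.PA.TriG

/-!
# Abundance for covers of projective space with multiplicities at least `n + 1`

Let `ℓ i = 0` be `q` hyperplanes in projective `n`-space, `n ≥ 3`, which do not just consist of
`n + 2` hyperplanes in general position, and let `X` be an abelian cover of projective space which
is branched over the arrangement with multiplicities at least `n + 1`. Then `κ = ν` for the
projective manifolds `V` birational to `X`, with the values `-∞`, `1` and `n`. The value `1` occurs
exactly when the arrangement consists of `n + 2` hyperplanes in general position and further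
hyperplanes of the pencil spanned by two of them, and the multiplicities of the other `n` hyperplanes
are `n + 1`.

The function-field language of the starting repository is used: prime divisors over `X` are the
divisorial places `P` of the function field `K` of `X` (`Divisorial`), `P.ord` is the order along
`P`; `KodGe ℂ K n (fun _ => False) 1` says that `κ (V) ≥ 1`, `NumLe ℂ K n (fun _ => False) 1` that
`ν (V) ≤ 1`: for every divisor `A` (generated by a finite set of functions) there is `C` with
`h⁰ (m K_V + A) ≤ C m` for all `m ≥ 1`; `Psef ℂ K n (fun _ => False)` says that `K_V` is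
pseudo-effective, `GeneralType ℂ K n` that `κ (V) = n`, and `Ruled ℂ K` that `V` is birational to
`B × ℙ¹` for some `B`.
-/

set_option autoImplicit false

open FF Pool.Agent.W602.Cov Pool.Agent.W602.GT

namespace Pool.Agent.Results.MP_c2a5fc_ag.PencilAbundance

/-- The curve `x (t)` meets the hyperplane `φ = 0` with multiplicity `k` at `t = 0`: the order of
vanishing of `φ (x (t))` at `t = 0` is `k`. -/
def Meets {n : ℕ} (x : Fin (n + 1) → Polynomial ℂ) (φ : Form n) (k : ℕ) : Prop :=
  ∃ g : Polynomial ℂ, ∑ j, Polynomial.C (φ (Pi.single j 1)) * x j = Polynomial.X ^ k * g ∧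
    g.eval 0 ≠ 0

/-- The multiplicities of the cover `X` are at least `m`: whenever a polynomial curve `x (t)` in
projective space, `x (0) ≠ 0`, meets the hyperplanes `ℓ i = 0` at `t = 0` with the multiplicities
`v i`, not all of them `0`, and these multiplicities are compatible with the equations
`y k ^ m k = ∏ i, ℓ i (x) ^ e k i` of `X`, at least one of them is at least `m`. -/
def Multiplicities {n q r : ℕ} (X : Cover n q r) (m : ℕ) : Prop :=
  ∀ (x : Fin (n + 1) → Polynomial ℂ) (v : Fin q → ℕ), (∃ j, (x j).eval 0 ≠ 0) →
    (∀ i, Meets x (X.ℓ i) (v i)) → v ≠ 0 → (∀ k, X.m k ∣ ∑ i, X.e k i * v i) → ∃ i, m ≤ v i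

/-- The arrangement consists of the `n + 2` hyperplanes `ℓ (c j) = 0`, which are in general
position: each `n + 1` of the forms are linearly independent. Hyperplanes may be listed several
times. -/
def GeneralPosition {n q : ℕ} (ℓ : Fin q → Form n) (c : Fin (n + 2) → Fin q) : Prop :=
  (∀ j : Fin (n + 2), LinearIndependent ℂ fun a => ℓ (c (j.succAbove a))) ∧
    ∀ i, ∃ (j : Fin (n + 2)) (t : ℂ), ℓ i = t • ℓ (c j)

/-- The arrangement contains the `n + 2` hyperplanes `ℓ (c k) = 0`, which are in general position,
and each of its other hyperplanes contains the intersection of `ℓ (c i) = 0` and `ℓ (c j) = 0`,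
where `i ≠ j`. -/
def PencilType {n q : ℕ} (ℓ : Fin q → Form n) (c : Fin (n + 2) → Fin q) (i j : Fin (n + 2)) :
    Prop :=
  i ≠ j ∧ (∀ k : Fin (n + 2), LinearIndependent ℂ fun a => ℓ (c (k.succAbove a))) ∧
    ∀ d, (∃ (k : Fin (n + 2)) (t : ℂ), ℓ d = t • ℓ (c k)) ∨
      ℓ d ∈ Submodule.span ℂ {ℓ (c i), ℓ (c j)}

open scoped Classical in
/-- For each `m` different from `i` and `j`, the multiplicities `n + 1` for the hyperplane
`ℓ (c m) = 0` and `0` for the others are compatible with the equations of `X`. -/
def Compatible {n q r : ℕ} (X : Cover n q r) (c : Fin (n + 2) → Fin q) (i j : Fin (n + 2)) :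
    Prop :=
  ∀ m, m ≠ i → m ≠ j → ∀ k,
    X.m k ∣ ∑ d, X.e k d * (if ∃ t : ℂ, X.ℓ d = t • X.ℓ (c m) then n + 1 else 0)

/-- Let `X` be an abelian cover of projective `n`-space, `n ≥ 3`, over an arrangement with
multiplicities at least `n + 1`, with function field `K`; the arrangement does not just consist of
`n + 2` hyperplanes in general position. Then one of the following holds.
The arrangement is reducible, `X` is ruled and the canonical bundle is not pseudo-effective.
The arrangement is of pencil type with multiplicities `n + 1`, and `κ ≥ 1`, `ν ≤ 1`, so that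
`κ = ν = 1`.
In all other cases `X` is of general type. -/
theorem result (n q r : ℕ) (hn : 3 ≤ n) (X : Cover n q r) (hX : X.Free)
    (hm : Multiplicities X (n + 1)) (hg : ¬ ∃ c, GeneralPosition X.ℓ c) (K : Type) [Field K]
    [Algebra ℂ K] (x : Fin (n + 1) → K) (y : Fin r → K) (hK : X.FunctionField K x y) :
    (Reducible X.ℓ ∧ Ruled ℂ K ∧ ¬ Psef ℂ K n (fun _ => False)) ∨
      (¬ Reducible X.ℓ ∧ (∃ c i j, PencilType X.ℓ c i j ∧ Compatible X c i j) ∧
        KodGe ℂ K n (fun _ => False) 1 ∧
        Pool.Agent.W619.TW.NumLe ℂ K n (fun _ => False) 1) ∨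
      (¬ Reducible X.ℓ ∧ (¬ ∃ c i j, PencilType X.ℓ c i j ∧ Compatible X c i j) ∧
        GeneralType ℂ K n) :=
  Pool.Agent.TH122.PA.trichotomyG hn X hX hK hm hg

end Pool.Agent.Results.MP_c2a5fc_ag.PencilAbundance
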